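import Pool.Agent.H68.LCS.Targets

/-!
# FLM: measurability of the hits of labels
-/

set_option autoImplicit false

open Set Filter Topology
open scoped Pointwise

namespace Pool.Agent.H17.LCS

open Pool.Agent.H93.CP Pool.Agent.H7.LP Pool.Agent.H7.LQ Pool.Agent.H68.LCS

theorem pf_FLM : T_FLM := by
  intro G X _ _ _ _ _ _ _ L M _ Y k n U hU
  set b := TopologicalSpace.countableBasis G with hb
  have hbb := TopologicalSpace.isBasis_countableBasis G
  have hbc : b.Countable := TopologicalSpace.countable_countableBasis G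
  -- the open set of pairs
  have hWo : IsOpen {p : G × G | ∃ r ∈ L.R k, p.1 * p.2⁻¹ * r⁻¹ ∈ U} := by
    have : {p : G × G | ∃ r ∈ L.R k, p.1 * p.2⁻¹ * r⁻¹ ∈ U} =
        ⋃ r ∈ L.R k, (fun p : G × G => p.1 * p.2⁻¹ * r⁻¹) ⁻¹' U := by
      ext p
      simp
    rw [this]
    refine isOpen_biUnion fun r _ => hU.preimage ?_
    exact (continuous_fst.mul continuous_snd.inv).mul continuous_const
  have key : {p : X × G | (lb L Y k p.1 p.2 n ∩ U).Nonempty} =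
      ⋃ u ∈ b, ⋃ v ∈ b, ⋃ (_ : u ×ˢ v ⊆ {p : G × G | ∃ r ∈ L.R k, p.1 * p.2⁻¹ * r⁻¹ ∈ U}),
        {x : X | (Y.C x n ∩ u).Nonempty} ×ˢ v := by
    ext ⟨x, g⟩
    have h1 : (lb L Y k x g n ∩ U).Nonempty ↔
        ({a | ∃ r ∈ L.R k, a * r ∈ tr g (Y.C x) n} ∩ U).Nonempty :=
      closure_inter_open_nonempty_iff hU
    simp only [mem_iUnion, mem_prod]
    refine h1.trans ?_
    constructor
    · rintro ⟨a, ⟨r, hr, har⟩, haU⟩
      have har' : a * r * g ∈ Y.C x n := har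
      have hmem : (a * r * g, g) ∈ {p : G × G | ∃ r ∈ L.R k, p.1 * p.2⁻¹ * r⁻¹ ∈ U} := by
        refine ⟨r, hr, ?_⟩
        have : a * r * g * g⁻¹ * r⁻¹ = a := by group
        change a * r * g * g⁻¹ * r⁻¹ ∈ U
        rwa [this]
      obtain ⟨s, hs, hs1, hs2⟩ := (hbb.prod hbb).exists_subset_of_mem_open hmem hWo
      obtain ⟨u, hu, v, hv, rfl⟩ := hs
      exact ⟨u, hu, v, hv, hs2, ⟨_, har', hs1.1⟩, hs1.2⟩
    · rintro ⟨u, hu, v, hv, hsub, ⟨c, hc, hcu⟩, hg⟩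
      obtain ⟨r, hr, hrU⟩ := hsub (show (c, g) ∈ u ×ˢ v from ⟨hcu, hg⟩)
      refine ⟨c * g⁻¹ * r⁻¹, ⟨r, hr, ?_⟩, hrU⟩
      change c * g⁻¹ * r⁻¹ * r * g ∈ Y.C x n
      have : c * g⁻¹ * r⁻¹ * r * g = c := by group
      rwa [this]
  rw [key]
  refine MeasurableSet.biUnion hbc fun u hu => MeasurableSet.biUnion hbc fun v hv =>
    MeasurableSet.iUnion fun _ => ?_
  exact (Y.meas n u (hbb.isOpen hu)).prod (hbb.isOpen hv).measurableSet

end Pool.Agent.H17.LCS
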